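import Pool.Agent.Helper22_DEN.Stmt

/-!
# Roots: finiteness, signs (ROOTF, ROOTS), and a nonzero maximal minor (MIN)
-/

open scoped BigOperators

namespace Pool.Agent.DEN.H59

/-- ROOTF -/
theorem rootFin : RootFinStmt := by
  intro r C hC
  set q : (Fin r → ℝ) → ℝ := fun x => ∑ i, ∑ j, x i * (C i j : ℝ) * x j with hqdef
  have hq : Continuous q := by
    simp only [hqdef]
    fun_prop
  have hhom : ∀ (a : ℝ) x, q (a • x) = a ^ 2 * q x := by
    intro a x
    simp only [hqdef, Pi.smul_apply, smul_eq_mul, Finset.mul_sum]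
    refine Finset.sum_congr rfl fun i _ => Finset.sum_congr rfl fun j _ => by ring
  obtain ⟨c, hc, hcq⟩ : ∃ c : ℝ, 0 < c ∧ ∀ x, ‖x‖ = 1 → c ≤ q x := by
    rcases (Metric.sphere (0 : Fin r → ℝ) 1).eq_empty_or_nonempty with h | h
    · refine ⟨1, one_pos, fun x hx => ?_⟩
      have : x ∈ Metric.sphere (0 : Fin r → ℝ) 1 := by simp [hx]
      rw [h] at this
      exact absurd this (Set.notMem_empty x)
    · obtain ⟨x0, hx0, hmin⟩ := (isCompact_sphere (0 : Fin r → ℝ) 1).exists_isMinOn h
        hq.continuousOn
      refine ⟨q x0, hC.pos x0 ?_, fun x hx => hmin ?_⟩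
      · rintro rfl
        simp at hx0
      · simp [hx]
  have hbound : ∀ x, c * ‖x‖ ^ 2 ≤ q x := by
    intro x
    by_cases hx : x = 0
    · subst hx
      simp [hqdef]
    · have hn : 0 < ‖x‖ := norm_pos_iff.mpr hx
      have h1 := hcq (‖x‖⁻¹ • x) (by
        rw [norm_smul, norm_inv, norm_norm, inv_mul_cancel₀ hn.ne'])
      rw [hhom] at h1
      have h2 : c * ‖x‖ ^ 2 ≤ (‖x‖⁻¹ ^ 2 * q x) * ‖x‖ ^ 2 :=
        mul_le_mul_of_nonneg_right h1 (by positivity)
      have h3 : (‖x‖⁻¹ ^ 2 * q x) * ‖x‖ ^ 2 = q x := by
        field_simp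
      rwa [h3] at h2
  obtain ⟨B, hB⟩ := exists_nat_ge (2 / c + 1)
  have hfin : Set.Finite {β : Fin r → ℤ | ip C β β = 2} := by
    apply Set.Finite.subset (Set.Finite.pi' (fun _ : Fin r => Set.finite_Icc (-(B : ℤ)) B))
    intro β hβ i
    have h2 : q (fun i => (β i : ℝ)) = 2 := by
      have h := congrArg (fun n : ℤ => (n : ℝ)) hβ
      simp only [ip] at h
      push_cast at h
      simpa [hqdef] using h
    have h3 := hbound (fun i => (β i : ℝ))
    rw [h2] at h3
    have h4 : |(β i : ℝ)| ≤ ‖(fun i => (β i : ℝ))‖ := norm_le_pi_norm (fun i => (β i : ℝ)) i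
    have h5 : |(β i : ℝ)| ≤ B := by
      by_contra hlt
      have hlt : (B : ℝ) < |(β i : ℝ)| := not_le.mp hlt
      have h6 : 2 / c < ‖(fun i => (β i : ℝ))‖ := by linarith
      have h7 : (1 : ℝ) ≤ ‖(fun i => (β i : ℝ))‖ := by
        have : 0 < 2 / c := by positivity
        linarith
      have h8 : 2 < c * ‖(fun i => (β i : ℝ))‖ := by
        rw [div_lt_iff₀ hc] at h6
        linarith
      have h9 : c * ‖(fun i => (β i : ℝ))‖ ≤ c * ‖(fun i => (β i : ℝ))‖ ^ 2 := by
        apply mul_le_mul_of_nonneg_left _ hc.le
        nlinarith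
      linarith
    have h6 := abs_le.mp h5
    constructor
    · have : (-(B : ℝ)) ≤ (β i : ℝ) := h6.1
      exact_mod_cast this
    · have : (β i : ℝ) ≤ (B : ℝ) := h6.2
      exact_mod_cast this
  exact hfin.to_subtype

section
variable {r : ℕ} {C : Matrix (Fin r) (Fin r) ℤ}

theorem ip_al_left (i : Fin r) (l : Fin r → ℤ) : ip C (al i) l = ∑ j, C i j * l j := by
  unfold ip
  rw [Finset.sum_eq_single i]
  · simp [al]
  · intro j _ hj
    apply Finset.sum_eq_zero
    intro k _
    simp [al, Pi.single_eq_of_ne hj]
  · simp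

theorem ip_expand (x l : Fin r → ℤ) : ip C x l = ∑ i, x i * ip C (al i) l := by
  simp only [ip_al_left, Finset.mul_sum]
  unfold ip
  refine Finset.sum_congr rfl fun i _ => Finset.sum_congr rfl fun j _ => by ring

end

/-- ROOTS -/
theorem rootSign : RootSignStmt := by
  intro r C hC
  have heven : ∀ x, Even (ip C x x) := by
    intro x
    rw [← hC.cexp_swap x x]
    exact ⟨_, rfl⟩
  have hge : ∀ x : Fin r → ℤ, x ≠ 0 → 2 ≤ ip C x x := by
    intro x hx
    have h1 := hC.ip_pos x hx
    obtain ⟨k, hk⟩ := heven x
    omega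
  refine ⟨?_, heven, ?_, ?_⟩
  · intro β
    set p : Fin r → ℤ := fun i => max (β.1 i) 0 with hp
    set n : Fin r → ℤ := fun i => max (-β.1 i) 0 with hn
    have hβ : β.1 = p - n := by
      funext i
      simp only [hp, hn, Pi.sub_apply]
      omega
    have hpn : ip C p n ≤ 0 := by
      unfold ip
      apply Finset.sum_nonpos
      intro i _
      apply Finset.sum_nonpos
      intro j _
      have hpi : 0 ≤ p i := le_max_right _ _
      have hnj : 0 ≤ n j := le_max_right _ _
      by_cases hij : i = j
      · subst hij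
        have : p i * n i = 0 := by
          simp only [hp, hn]
          rcases le_total 0 (β.1 i) with h | h
          · rw [max_eq_right (show -β.1 i ≤ 0 by omega), mul_zero]
          · rw [max_eq_right h, zero_mul]
        have h2 : p i * C i i * n i = C i i * (p i * n i) := by ring
        rw [h2, this, mul_zero]
      · have hc : C i j ≤ 0 := by
          rcases hC.off i j hij with h | h <;> omega
        have h1 : p i * C i j ≤ 0 := mul_nonpos_of_nonneg_of_nonpos hpi hc
        exact mul_nonpos_of_nonpos_of_nonneg h1 hnj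
    have h2 : ip C p p + ip C n n ≤ 2 := by
      have h := β.2
      rw [hβ] at h
      simp only [ip_sub_left, ip_sub_right, hC.ip_comm n p] at h
      linarith
    by_cases h0 : n = 0
    · left
      intro i
      have := congrFun h0 i
      simp only [hn, Pi.zero_apply] at this
      omega
    · by_cases h1 : p = 0
      · right
        intro i
        have := congrFun h1 i
        simp only [hp, Pi.zero_apply] at this
        rw [Rt.neg_val, Pi.neg_apply]
        omega
      · have := hge n h0
        have := hge p h1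
        omega
  · intro x y h
    have hz : ip C (x - y) (x - y) = 0 := by
      rw [ip_expand]
      apply Finset.sum_eq_zero
      intro i _
      rw [ip_sub_right, h i, sub_self, mul_zero]
    by_contra hne
    have := hge (x - y) (sub_ne_zero.mpr hne)
    omega
  · intro x l hl hx i
    rw [ip_expand x l]
    exact Finset.single_le_sum (f := fun i => x i * ip C (al i) l)
      (fun j _ => mul_nonneg (hx j) (hl j)) (Finset.mem_univ i)

/-- MIN -/
theorem minor : MinStmt := by
  intro F _ ι κ _ _ _ _ B B' h
  by_contra hcon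
  have hcon : ∀ s : κ → ι, (B.submatrix s id).det = 0 := by
    intro s
    by_contra hs
    exact hcon ⟨s, hs⟩
  have h1 : (B' * B).det = 0 := by
    have h2 : (B' * B).det = Matrix.detRowAlternating (R := F) (n := κ)
        (fun k => ∑ i, B' k i • B i) := by
      show Matrix.detRowAlternating (B' * B) = _
      congr 1
      funext k j
      simp [Matrix.mul_apply, Finset.sum_apply]
    rw [h2]
    have h3 := (Matrix.detRowAlternating (R := F) (n := κ)).toMultilinearMap.map_sum
      (fun k i => B' k i • B i)
    have h4 : (Matrix.detRowAlternating (R := F) (n := κ)) (fun k => ∑ i, B' k i • B i) =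
        (Matrix.detRowAlternating (R := F) (n := κ)).toMultilinearMap
          (fun k => ∑ i, B' k i • B i) := rfl
    rw [h4, h3]
    apply Finset.sum_eq_zero
    intro s _
    rw [MultilinearMap.map_smul_univ]
    have h5 : (Matrix.detRowAlternating (R := F) (n := κ)).toMultilinearMap
        (fun k => B (s k)) = (B.submatrix s id).det := rfl
    rw [h5, hcon s, smul_zero]
  rw [h, Matrix.det_one] at h1
  exact one_ne_zero h1

end Pool.Agent.DEN.H59
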